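import Pool.Agent.MP_bd94e8_al.H89.Spec

/-!
From finite pieces of the graded cover to the base problem.
-/

set_option autoImplicit false
set_option linter.unusedSectionVars false

namespace Pool.Agent.MP_bd94e8_al.H89

open Module Function

namespace CovA

open Pointwise

variable {k F : Type} [Field k] [Field F] [Algebra k F] {Pt ι Ω : Type} [Fintype Pt]
  [DecidableEq Pt] [Fintype Ω] {P : Prob k F Pt ι Ω} {G : Type} [Group G] {deg : Pt → G}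

section obj
variable {V : Type} [AddCommGroup V] [Module F V] {M : Obj P V}

theorem ex_eps (Γ : Grd M deg) {g : G} (h : Γ.π g ≠ 0) : ∃ o, Γ.π g ∘ₗ M.ε o ≠ 0 := by
  by_contra hc
  apply h
  ext x
  have h1 := LinearMap.congr_fun M.sum x
  rw [LinearMap.sum_apply, LinearMap.id_apply] at h1
  rw [← h1, map_sum]
  refine Finset.sum_eq_zero fun o _ => ?_
  have h2 : Γ.π g ∘ₗ M.ε o = 0 := by
    by_contra h3
    exact hc ⟨o, h3⟩
  exact LinearMap.congr_fun h2 x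

theorem ne_of_comp (Γ : Grd M deg) {g : G} {o : Ω} (h : Γ.π g ∘ₗ M.ε o ≠ 0) : Γ.π g ≠ 0 :=
  fun e => h (by rw [e, LinearMap.zero_comp])

theorem mem_s (Γ : Grd M deg) {g : G} (h : Γ.π g ≠ 0) : g ∈ Γ.s := by
  by_contra hc
  exact h (Γ.supp g hc)

theorem ex_ne [Nontrivial V] (Γ : Grd M deg) : ∃ g, Γ.π g ≠ 0 := by
  by_contra hc
  obtain ⟨x, hx⟩ := exists_ne (0 : V)
  apply hx
  have h1 := LinearMap.congr_fun Γ.sum x
  rw [LinearMap.sum_apply, LinearMap.id_apply] at h1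
  rw [← h1]
  refine Finset.sum_eq_zero fun g _ => ?_
  have h2 : Γ.π g = 0 := by
    by_contra h3
    exact hc ⟨g, h3⟩
  rw [h2, LinearMap.zero_apply]

/-- The translate of a grading. -/
def shift (Γ : Grd M deg) (a : G) (D : Finset G) (hD : ∀ g, Γ.π (a * g) ≠ 0 → g ∈ D) :
    Grd M deg where
  π g := Γ.π (a * g)
  s := D
  supp g hg := by
    by_contra h
    exact hg (hD g h)
  orth g g' h := Γ.orth _ _ fun e => h (mul_left_cancel e)
  sum := by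
    classical
    rw [← Γ.sum, ← Finset.sum_image (s := D) (g := fun g => a * g) (f := Γ.π)
      fun x _ y _ e => mul_left_cancel e]
    rw [Finset.sum_subset (s₁ := D.image fun g => a * g) (s₂ := D.image (fun g => a * g) ∪ Γ.s)
      Finset.subset_union_left, Finset.sum_subset (s₁ := Γ.s)
      (s₂ := D.image (fun g => a * g) ∪ Γ.s) Finset.subset_union_right]
    · intro x _ hx
      exact Γ.supp x hx
    · intro x _ hx
      by_contra h
      apply hx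
      refine Finset.mem_image.2 ⟨a⁻¹ * x, hD _ ?_, mul_inv_cancel_left a x⟩
      rwa [mul_inv_cancel_left]
  comm g o := Γ.comm _ o
  hom u hu g := by
    have := Γ.hom u hu (a * g)
    simpa only [mul_assoc] using this

theorem shift_indec {Γ : Grd M deg} (h : Γ.Indec) (a : G) (D : Finset G)
    (hD : ∀ g, Γ.π (a * g) ≠ 0 → g ∈ D) : (shift Γ a D hD).Indec := by
  refine ⟨h.1, fun e he hc hi => h.2 e he (fun g => ?_) hi⟩
  have := hc (a⁻¹ * g)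
  simpa only [shift, mul_inv_cancel_left] using this

theorem indec_of (Γ : Grd M deg) (h : M.Indec) : Γ.Indec :=
  ⟨h.1, fun e he _ hi => h.2 e he hi⟩

end obj

theorem near {T I O : Type} [Fintype T] [DecidableEq T] [DecidableEq G] {J : Prob k F T I O}
    {π : T → Pt} {γ : I → ι × G} {θ : O → Ω × G} (hL : Lift J P deg π γ θ) (E : Finset G)
    (h1 : (1 : G) ∈ E) (hE : ∀ p q, (deg p)⁻¹ * deg q ∈ E) {c : ℕ} {o o' : O}
    (h : J.Near c o o') : ((θ o).2)⁻¹ * (θ o').2 ∈ E ^ c := by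
  obtain ⟨f, h0, hc, hs⟩ := h
  have : ∀ n ≤ c, ((θ (f 0)).2)⁻¹ * (θ (f n)).2 ∈ E ^ n := by
    intro n
    induction n with
    | zero => intro _; rw [pow_zero, inv_mul_cancel]; exact Finset.mem_one.2 rfl
    | succ n ih =>
      intro hn
      have h2 := ih (by omega)
      have h3 : ((θ (f n)).2)⁻¹ * (θ (f (n + 1))).2 ∈ E := by
        rcases hs n (by omega) with e | ⟨p, q, e, hp, hq⟩
        · rw [← e, inv_mul_cancel]; exact h1
        · rw [← hp, ← hq, hL.pk, hL.pk, e]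
          have := hE (π p) (π q)
          simpa [mul_assoc] using this
      rw [pow_succ]
      have h4 := Finset.mul_mem_mul h2 h3
      simpa [mul_assoc] using h4
  have h5 := this c le_rfl
  rwa [h0, hc] at h5

theorem key (hP : SPiece) (hC : SConv) (hg : Graded P deg) (𝒢 : Set (ι × G) → Prop)
    (h𝒢 : ∀ Γ₀ : Finset (ι × G), (∀ x ∈ Γ₀, ∃ p, P.vt p = x.1) →
      ∃ Γ : Finset (ι × G), Γ₀ ⊆ Γ ∧ (∀ x ∈ Γ, ∃ p, P.vt p = x.1) ∧ 𝒢 Γ) (D : Finset G) :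
    ∃ (T I O : Type) (_ : Fintype T) (_ : DecidableEq T) (_ : Fintype I) (_ : Fintype O)
      (J : Prob k F T I O) (π : T → Pt) (γ : I → ι × G) (θ : O → Ω × G),
      Lift J P deg π γ θ ∧ 𝒢 (Set.range γ) ∧
      ∀ (V : Type) [AddCommGroup V] [Module F V] (M : Obj P V) (Γ : Grd M deg),
        (∀ g, Γ.π g ≠ 0 → g ∈ D) → Γ.Indec → ∃ N : Obj J V, N.Indec ∧
          Push π (fun o => (θ o).1) N M ∧
          ∀ g, Γ.π g ≠ 0 → ∃ o, (θ o).2 = g ∧ N.ε o ≠ 0 := by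
  classical
  obtain ⟨Γ', h0, h1, h2⟩ := h𝒢 (((Finset.univ : Finset Pt) ×ˢ D).image
    fun x => (P.vt x.1, x.2 * (deg x.1)⁻¹)) (by
      intro x hx
      obtain ⟨y, _, rfl⟩ := Finset.mem_image.1 hx
      exact ⟨y.1, rfl⟩)
  obtain ⟨T, I, O, iT, dT, iI, iO, J, π, γ, θ, hL, hγ, hθ⟩ :=
    (hP k F Pt ι Ω P G deg hg).1 Γ' ((Finset.univ : Finset Ω) ×ˢ D) h1
  refine ⟨T, I, O, iT, dT, iI, iO, J, π, γ, θ, hL, by rw [hγ]; exact h2, ?_⟩
  intro V _ _ M Γ hD hI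
  have hθ' : ∀ o g, Γ.π g ∘ₗ M.ε o ≠ 0 → (o, g) ∈ Set.range θ := fun o g h =>
    hθ (Finset.mem_coe.2 (Finset.mem_product.2 ⟨Finset.mem_univ _, hD g (ne_of_comp Γ h)⟩))
  obtain ⟨N, hN, hε, hH⟩ := hC k F Pt ι Ω P G deg T I O J π γ θ hL V M Γ hθ' (by
    intro p g h
    rw [hγ]
    refine Finset.mem_coe.2 (h0 (Finset.mem_image.2 ⟨(p, g * deg p),
      Finset.mem_product.2 ⟨Finset.mem_univ _, hD _ (ne_of_comp Γ h)⟩, ?_⟩))
    simp)
  refine ⟨N, ⟨hI.1, fun e he hi => hI.2 e ((hH e).1 he).1 ((hH e).1 he).2 hi⟩, hN, ?_⟩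
  intro g h
  obtain ⟨o, ho⟩ := ex_eps Γ h
  obtain ⟨x, hx⟩ := hθ' o g ho
  refine ⟨x, by rw [hx], ?_⟩
  rw [hε, hx]
  exact ho

end CovA

open CovA Pointwise in
theorem cov : SPiece → SConv → SDL → SPush → SCov := by
  intro hP hC hDL hPu k F _ _ _ _ Pt ι Ω _ _ _ P G _ deg htf hg c 𝒢 h𝒢 hJ
  classical
  obtain ⟨E, h1, hE⟩ : ∃ E : Finset G, (1 : G) ∈ E ∧ ∀ p q, (deg p)⁻¹ * deg q ∈ E :=
    ⟨insert 1 ((Finset.univ : Finset (Pt × Pt)).image fun x => (deg x.1)⁻¹ * deg x.2),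
      Finset.mem_insert_self _ _, fun p q => Finset.mem_insert_of_mem
        (Finset.mem_image.2 ⟨(p, q), Finset.mem_univ _, rfl⟩)⟩
  have hD : ∀ (V : Type) [AddCommGroup V] [Module F V] [FiniteDimensional F V] (M : Obj P V)
      (Γ : Grd M deg), Γ.Indec → ∀ g g', Γ.π g ≠ 0 → Γ.π g' ≠ 0 → g⁻¹ * g' ∈ E ^ c := by
    intro V _ _ _ M Γ hI g g' hg1 hg2
    obtain ⟨T, I, O, iT, dT, iI, iO, J, π, γ, θ, hL, hG, hK⟩ := key hP hC hg 𝒢 h𝒢 Γ.s
    obtain ⟨N, hN, -, hε⟩ := hK V M Γ (fun g h => mem_s Γ h) hI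
    obtain ⟨o, rfl, ho⟩ := hε g hg1
    obtain ⟨o', rfl, ho'⟩ := hε g' hg2
    exact near hL E h1 hE ((hJ T I O J π γ θ hL hG).2 V N hN o o' ho ho')
  have hGB : GBnd P deg := by
    obtain ⟨T, I, O, iT, dT, iI, iO, J, π, γ, θ, hL, hG, hK⟩ := key hP hC hg 𝒢 h𝒢 (E ^ c)
    obtain ⟨b, hb⟩ := (hJ T I O J π γ θ hL hG).1
    refine ⟨b, fun V _ _ _ M Γ hI => ?_⟩
    have := hI.1
    obtain ⟨a, ha⟩ := ex_ne Γ
    have hs : ∀ g, Γ.π (a * g) ≠ 0 → g ∈ E ^ c := fun g h => by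
      have := hD V M Γ hI a (a * g) ha h
      rwa [inv_mul_cancel_left] at this
    obtain ⟨N, hN, -⟩ := hK V M (shift Γ a _ hs) hs (shift_indec hI a _ hs)
    exact hb V N hN
  have hex : ∀ (V : Type) [AddCommGroup V] [Module F V] [FiniteDimensional F V] (M : Obj P V),
      M.Indec → ∃ (T I O : Type) (_ : Fintype T) (_ : DecidableEq T) (_ : Fintype I)
      (_ : Fintype O) (J : Prob k F T I O) (π : T → Pt) (γ : I → ι × G) (θ : O → Ω × G)
      (N : Obj J V), Lift J P deg π γ θ ∧ 𝒢 (Set.range γ) ∧ N.Indec ∧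
        Push π (fun o => (θ o).1) N M := by
    intro V _ _ _ M hM
    obtain ⟨Γ⟩ := hDL k F Pt ι Ω P G deg htf hg (E ^ c) hD V M hM
    obtain ⟨T, I, O, iT, dT, iI, iO, J, π, γ, θ, hL, hG, hK⟩ := key hP hC hg 𝒢 h𝒢 Γ.s
    obtain ⟨N, hN, hp, -⟩ := hK V M Γ (fun g h => mem_s Γ h) (indec_of Γ hM)
    exact ⟨T, I, O, iT, dT, iI, iO, J, π, γ, θ, N, hL, hG, hN, hp⟩
  refine ⟨hGB, ?_, ?_, hex⟩
  · obtain ⟨b, hb⟩ := hGB
    refine ⟨b, fun V _ _ _ M hM => ?_⟩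
    obtain ⟨Γ⟩ := hDL k F Pt ι Ω P G deg htf hg (E ^ c) hD V M hM
    exact hb V M Γ (indec_of Γ hM)
  · intro V _ _ _ M hM ω ω' hω hω'
    obtain ⟨T, I, O, iT, dT, iI, iO, J, π, γ, θ, N, hL, hG, hN, hp⟩ := hex V M hM
    obtain ⟨-, -, -, h4, h5⟩ := hPu k F Pt ι Ω P T I O J π (fun o => (θ o).1) V N M hL.cov hp
    obtain ⟨o, rfl, ho⟩ := h5 ω hω
    obtain ⟨o', rfl, ho'⟩ := h5 ω' hω'
    exact h4 c o o' ((hJ T I O J π γ θ hL hG).2 V N hN o o' ho ho')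

end Pool.Agent.MP_bd94e8_al.H89
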